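import Pool.Agent.helper11.RPQ.SpecT
import Pool.Agent.helper62.RS.All

/-!
# Row rpq:F2 (MP_07c750_an): lower frame bound for quasimodes
-/

set_option autoImplicit false

open scoped MatrixGroups ContDiff Topology UpperHalfPlane ComplexConjugate
open UpperHalfPlane MeasureTheory Filter Set

namespace Pool.Agent.RPQ

open Pool.Agent.RS
open Pool.Agent.MS (BA BB st pf gk Dk amk)

theorem F2_cont {n : WithTop ℕ∞} {φ : ℍ → ℂ} (h : QU.CD n φ) : Continuous φ := by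
  have h1 : ContinuousOn (QU.onC φ) {w : ℂ | 0 < w.im} := h.continuousOn
  have h2 : Continuous fun z : ℍ => QU.onC φ (z : ℂ) := h1.comp_continuous continuous_coe fun z => z.im_pos
  have h3 : (fun z : ℍ => QU.onC φ (z : ℂ)) = φ := by
    funext z
    unfold QU.onC
    rw [ofComplex_apply]
  rwa [h3] at h2

theorem F2_invC {Γ : Subgroup SL(2, ℝ)} {lam : ℝ} {φ : ℍ → ℂ} (h : EigL Γ lam φ) : InvC Γ φ :=
  ⟨F2_cont h.1, h.2.1⟩

/-- products of invariant functions are integrable on `F` -/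
theorem F2_bdF {Γ : Subgroup SL(2, ℝ)} {F : Set ℍ} {u v : ℍ → ℂ} (hΓ : QU.SurfaceGroup Γ) (hF : QU.NiceDom Γ F)
    (hu : InvC Γ u) (hv : InvC Γ v) : IntegrableOn (fun z => u z * conj (v z)) F := by
  obtain ⟨m, hm⟩ := (QU.A_BDD Γ F (fun z => ‖u z‖) hΓ hF
    ⟨hu.1.norm, fun γ z => by simp only [hu.2 γ z]⟩).1
  obtain ⟨m', hm'⟩ := (QU.A_BDD Γ F (fun z => ‖v z‖) hΓ hF
    ⟨hv.1.norm, fun γ z => by simp only [hv.2 γ z]⟩).1
  have hfin := (QU.A_DOB Γ F hΓ hF).2.2.2.1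
  have : IsFiniteMeasure ((volume : Measure ℍ).restrict F) := ⟨by rwa [Measure.restrict_apply_univ]⟩
  have hc : Continuous fun z => u z * conj (v z) := hu.1.mul (Complex.continuous_conj.comp hv.1)
  refine Integrable.of_bound hc.aestronglyMeasurable (m * m') (Filter.Eventually.of_forall fun z => ?_)
  rw [norm_mul, RCLike.norm_conj]
  have h1 : ‖u z‖ ≤ m := (le_abs_self _).trans (hm z)
  have h2 : ‖v z‖ ≤ m' := (le_abs_self _).trans (hm' z)
  exact mul_le_mul h1 h2 (norm_nonneg _) ((norm_nonneg _).trans h1)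

/-- products of invariant functions are integrable on `dG F` -/
theorem F2_bdG (hGFD : GFD_stmt) (hGBD : GBD_stmt) {Γ : Subgroup SL(2, ℝ)} {F : Set ℍ} {u v : SL(2, ℝ) → ℂ}
    (hΓ : QU.SurfaceGroup Γ) (hF : QU.NiceDom Γ F) (hu : InvG Γ u) (hv : InvG Γ v) :
    IntegrableOn (fun g => u g * conj (v g)) (dG F) mG := by
  obtain ⟨⟨hm, -, hfin, -⟩, -⟩ := hGFD Γ F hΓ hF
  obtain ⟨⟨m, hm1⟩, -⟩ := hGBD Γ ℂ u hΓ hu
  obtain ⟨⟨m', hm2⟩, -⟩ := hGBD Γ ℂ v hΓ hv
  have : IsFiniteMeasure (mG.restrict (dG F)) := ⟨by rwa [Measure.restrict_apply_univ]⟩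
  have hc : Continuous fun g => u g * conj (v g) := hu.1.mul (Complex.continuous_conj.comp hv.1)
  refine Integrable.of_bound hc.aestronglyMeasurable (m * m') (Filter.Eventually.of_forall fun g => ?_)
  rw [norm_mul, RCLike.norm_conj]
  exact mul_le_mul (hm1 g) (hm2 g) (norm_nonneg _) ((norm_nonneg _).trans (hm1 g))

/-- linearity of the pairing -/
theorem F2_lin {ι : Type} (s : Finset ι) (f : ℍ → ℂ) (a : ι → ℂ) (v : ι → ℍ → ℂ) (hf : Continuous f)
    (hfc : HasCompactSupport f) (hv : ∀ i ∈ s, Continuous (v i)) (g : SL(2, ℝ)) :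
    Wf f (fun z => ∑ i ∈ s, a i * v i z) g = ∑ i ∈ s, a i * Wf f (v i) g := by
  unfold Wf
  have h1 : (fun z : ℍ => f z * ∑ i ∈ s, a i * v i (g • z)) = fun z => ∑ i ∈ s, a i * (f z * v i (g • z)) := by
    funext z
    rw [Finset.mul_sum]
    exact Finset.sum_congr rfl fun i _ => by ring
  rw [h1, integral_finsetSum]
  · exact Finset.sum_congr rfl fun i _ => integral_const_mul _ _
  · intro i hi
    refine Integrable.const_mul ?_ _
    have h2 : Continuous fun z : ℍ => f z * v i (g • z) := hf.mul ((hv i hi).comp (continuous_const_smul g))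
    exact h2.integrable_of_hasCompactSupport hfc.mul_right

theorem F2_invS {ι : Type} {Γ : Subgroup SL(2, ℝ)} (s : Finset ι) (a : ι → ℂ) (v : ι → ℍ → ℂ)
    (hv : ∀ i ∈ s, InvC Γ (v i)) : InvC Γ (fun z => ∑ i ∈ s, a i * v i z) := by
  refine ⟨continuous_finsetSum s fun i hi => continuous_const.mul (hv i hi).1, fun γ z => ?_⟩
  exact Finset.sum_congr rfl fun i hi => by rw [(hv i hi).2 γ z]

/-- Bessel's inequality for packets -/
theorem F2_alg (hGFD : GFD_stmt) (hGBD : GBD_stmt) (hFL0 : FL0_stmt) (hGR2 : GR2_stmt)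
    {Γ : Subgroup SL(2, ℝ)} {F : Set ℍ} {c φ : ℍ → ℂ} (R : ℝ) {n : ℕ} (v : Fin n → ℍ → ℂ) (lam s : Fin n → ℝ) (I : Finset (Fin n))
    (hΓ : QU.SurfaceGroup Γ) (hF : QU.NiceDom Γ F) (hc : TB (1 / 4) c) (hφ : InvC Γ φ) (hv : ∀ i, EigL Γ (lam i) (v i))
    (hs : ∀ i ∈ I, lam i = 1 / 4 + s i ^ 2) (hO : ∀ i j, ∫ z in F, v i z * conj (v j z) = if i = j then 1 else 0) :
    ∑ i ∈ I, ‖∫ w in F, φ w * conj (v i w)‖ ^ 2 * bk (cc c) R (s i) ≤ qn F c R φ := by
  set a : Fin n → ℂ := fun i => ∫ w in F, φ w * conj (v i w) with ha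
  set φ' : ℍ → ℂ := fun z => ∑ i ∈ I, a i * v i z with hφ'
  have hvI : ∀ i, InvC Γ (v i) := fun i => F2_invC (hv i)
  have hφ'I : InvC Γ φ' := F2_invS I a v fun i _ => hvI i
  have hT := hFL0.2.1 (1 / 4) R c hc
  have hfc : Continuous (pk R c) := F2_cont hT.1
  have hW : ∀ u : ℍ → ℂ, InvC Γ u → InvG Γ (Wf (pk R c) u) := fun u hu => hFL0.2.2 Γ (pk R c) u hfc hT.2 hu
  set W : SL(2, ℝ) → ℂ := Wf (pk R c) φ with hWd
  set W' : SL(2, ℝ) → ℂ := Wf (pk R c) φ' with hW'd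
  have hW'e : ∀ g, W' g = ∑ i ∈ I, a i * Wf (pk R c) (v i) g := fun g =>
    F2_lin I (pk R c) a v hfc hT.2 (fun i _ => (hvI i).1) g
  have hWI : InvG Γ W := hW φ hφ
  have hW'I : InvG Γ W' := hW φ' hφ'I
  -- GR2
  have hG : ∀ i ∈ I, ∀ u : ℍ → ℂ, InvC Γ u → ∫ g in dG F, Wf (pk R c) (v i) g * conj (Wf (pk R c) u g) ∂mG =
      (∫ z in F, v i z * conj (u z)) * ((bk (cc c) R (s i) : ℝ) : ℂ) := by
    intro i hi u hu
    have h1 : EigL Γ (1 / 4 + s i ^ 2) (v i) := by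
      rw [← hs i hi]
      exact hv i
    exact (hGR2 Γ F hΓ hF (s i) (v i) h1).1 c u R hc hu
  have hexp : ∀ u : ℍ → ℂ, InvC Γ u → ∫ g in dG F, W' g * conj (Wf (pk R c) u g) ∂mG =
      ∑ i ∈ I, a i * ((∫ z in F, v i z * conj (u z)) * ((bk (cc c) R (s i) : ℝ) : ℂ)) := by
    intro u hu
    have h1 : (fun g => W' g * conj (Wf (pk R c) u g)) =
        fun g => ∑ i ∈ I, a i * (Wf (pk R c) (v i) g * conj (Wf (pk R c) u g)) := by
      funext g
      rw [hW'e g, Finset.sum_mul]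
      exact Finset.sum_congr rfl fun i _ => by ring
    rw [h1, integral_finsetSum]
    · refine Finset.sum_congr rfl fun i hi => ?_
      rw [integral_const_mul, hG i hi u hu]
    · intro i _
      exact (F2_bdG hGFD hGBD hΓ hF (hW _ (hvI i)) (hW u hu)).const_mul _
  set S : ℝ := ∑ i ∈ I, ‖a i‖ ^ 2 * bk (cc c) R (s i) with hS
  have hconj : ∀ i, a i * conj (a i) = ((‖a i‖ ^ 2 : ℝ) : ℂ) := by
    intro i
    rw [Complex.mul_conj, Complex.normSq_eq_norm_sq]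
  have hSc : ∑ i ∈ I, a i * (conj (a i) * ((bk (cc c) R (s i) : ℝ) : ℂ)) = (S : ℂ) := by
    rw [hS, Complex.ofReal_sum]
    refine Finset.sum_congr rfl fun i _ => ?_
    rw [← mul_assoc, hconj i, Complex.ofReal_mul]
  have hA : ∫ g in dG F, W' g * conj (W g) ∂mG = (S : ℂ) := by
    rw [hWd, hexp φ hφ, ← hSc]
    refine Finset.sum_congr rfl fun i _ => ?_
    have h1 : ∫ z in F, v i z * conj (φ z) = conj (a i) := by
      rw [ha]
      simp only
      rw [← integral_conj]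
      refine integral_congr_ae (Filter.Eventually.of_forall fun z => ?_)
      simp only [map_mul, Complex.conj_conj]
      ring
    rw [h1]
  have hB : ∫ g in dG F, W' g * conj (W' g) ∂mG = (S : ℂ) := by
    have h0 := hexp φ' hφ'I
    rw [← hW'd] at h0
    rw [h0, ← hSc]
    refine Finset.sum_congr rfl fun i hi => ?_
    have h1 : ∫ z in F, v i z * conj (φ' z) = conj (a i) := by
      have h2 : (fun z => v i z * conj (φ' z)) = fun z => ∑ j ∈ I, conj (a j) * (v i z * conj (v j z)) := by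
        funext z
        rw [hφ']
        simp only
        rw [map_sum, Finset.mul_sum]
        refine Finset.sum_congr rfl fun j _ => ?_
        rw [map_mul]
        ring
      rw [h2, integral_finsetSum]
      · have h3 : ∀ j ∈ I, ∫ z in F, conj (a j) * (v i z * conj (v j z)) = if i = j then conj (a i) else 0 := by
          intro j _
          rw [integral_const_mul, hO i j]
          by_cases hij : i = j
          · rw [if_pos hij, if_pos hij, mul_one, hij]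
          · rw [if_neg hij, if_neg hij, mul_zero]
        rw [Finset.sum_congr rfl h3, Finset.sum_ite_eq, if_pos hi]
      · intro j _
        exact (F2_bdF hΓ hF (hvI i) (hvI j)).const_mul _
    rw [h1]
  have hA' : ∫ g in dG F, W g * conj (W' g) ∂mG = (S : ℂ) := by
    have h1 : ∫ g in dG F, W g * conj (W' g) ∂mG = conj (∫ g in dG F, W' g * conj (W g) ∂mG) := by
      rw [← integral_conj]
      refine integral_congr_ae (Filter.Eventually.of_forall fun g => ?_)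
      simp only [map_mul, Complex.conj_conj]
      ring
    rw [h1, hA, Complex.conj_ofReal]
  have hQ : ∫ g in dG F, W g * conj (W g) ∂mG = ((qn F c R φ : ℝ) : ℂ) := by
    unfold qn iR
    rw [← integral_complex_ofReal]
    refine integral_congr_ae (Filter.Eventually.of_forall fun g => ?_)
    simp only
    rw [Complex.mul_conj, Complex.normSq_eq_norm_sq]
  have i1 := F2_bdG hGFD hGBD hΓ hF hWI hWI
  have i2 := F2_bdG hGFD hGBD hΓ hF hW'I hWI
  have i3 := F2_bdG hGFD hGBD hΓ hF hWI hW'I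
  have i4 := F2_bdG hGFD hGBD hΓ hF hW'I hW'I
  have hfin : ∫ g in dG F, ((‖W g - W' g‖ ^ 2 : ℝ) : ℂ) ∂mG = ((qn F c R φ - S : ℝ) : ℂ) := by
    have h1 : (fun g => ((‖W g - W' g‖ ^ 2 : ℝ) : ℂ)) = fun g =>
        (W g * conj (W g) - W' g * conj (W g)) - (W g * conj (W' g) - W' g * conj (W' g)) := by
      funext g
      rw [← Complex.normSq_eq_norm_sq, ← Complex.mul_conj, map_sub]
      ring
    have j1 : IntegrableOn (fun g => W g * conj (W g) - W' g * conj (W g)) (dG F) mG := i1.sub i2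
    have j2 : IntegrableOn (fun g => W g * conj (W' g) - W' g * conj (W' g)) (dG F) mG := i3.sub i4
    rw [h1, integral_sub j1 j2, integral_sub i1 i2, integral_sub i3 i4, hQ, hA, hA', hB]
    push_cast
    ring
  have hre : ∫ g in dG F, ((‖W g - W' g‖ ^ 2 : ℝ) : ℂ) ∂mG = ((∫ g in dG F, ‖W g - W' g‖ ^ 2 ∂mG : ℝ) : ℂ) :=
    integral_complex_ofReal
  rw [hre, Complex.ofReal_inj] at hfin
  have h0 : 0 ≤ ∫ g in dG F, ‖W g - W' g‖ ^ 2 ∂mG := integral_nonneg fun g => by positivity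
  linarith

theorem F2_main (hGFD : GFD_stmt) (hGBD : GBD_stmt) (hFL0 : FL0_stmt) (hGR2 : GR2_stmt)
    (hNBD : NBD_stmt) (hCPL : CPL_stmt) (hSPM : SPM_stmt) (hCWB : CWB_stmt) : F2_stmt := by
  intro Γ F α β η hΓ hF hα hβ hη hη'
  obtain ⟨δ, R1, hδ, hR1, hN⟩ := hNBD α β η hα hβ hη hη'
  set d : ℝ := min δ (3 * η / 4) with hd
  have hd0 : 0 < d := lt_min hδ (by positivity)
  refine ⟨d / 2, max R1 ((3 : ℝ) ^ (2 / d)), by positivity, hR1.trans (le_max_left _ _), ?_⟩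
  intro R w φ ψ hR hw1 hw0 hφ2 hφ hψ heq hnψ
  have hRR1 : R1 ≤ R := (le_max_left _ _).trans hR
  have hR3 : (3 : ℝ) ^ (2 / d) ≤ R := (le_max_right _ _).trans hR
  have hR1' : 1 ≤ R := hR1.trans hRR1
  have hR0 : 0 < R := by linarith
  have hwpos : 0 < w := lt_of_lt_of_le (Real.rpow_pos_of_pos hR0 _) hw1
  have hwle : w ≤ 1 := by
    refine hw0.trans ?_
    unfold w0
    exact Real.rpow_le_one_of_one_le_of_nonpos hR1' (by norm_num)
  have hlpos : 0 < R ^ (-η) := Real.rpow_pos_of_pos hR0 _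
  have hlle : R ^ (-η) ≤ 1 := Real.rpow_le_one_of_one_le_of_nonpos hR1' (by linarith)
  obtain ⟨-, -, -, -, -, -, hT, -⟩ := hCWB α β w (R ^ (-η)) hα hβ hwpos hwle hlpos hlle
  set c : ℍ → ℂ := cw β α w (R ^ (-η)) with hc
  have hnn : 0 ≤ nn F φ := integral_nonneg fun z => by positivity
  have hq : 0 ≤ qn F c R φ := integral_nonneg fun g => by positivity
  rcases hnn.eq_or_lt with hz | hpos
  · rw [← hz, mul_zero]
    positivity
  have hRd : 0 < R ^ (-δ) := Real.rpow_pos_of_pos hR0 _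
  have hRd1 : R ^ (-δ) ≤ 1 := Real.rpow_le_one_of_one_le_of_nonpos hR1' (by linarith)
  obtain ⟨n, v, lam, hv, hO, hap⟩ := hCPL Γ F hΓ hF φ (R ^ (-δ) * nn F φ) hφ (by positivity)
  obtain ⟨hs1, -, hs3⟩ := hSPM Γ F R φ ψ n v lam hΓ hF hφ2 hφ hψ heq hv hO
  set a : Fin n → ℂ := fun i => ∫ w in F, φ w * conj (v i w) with ha
  -- the indices near the frequency
  classical
  set I : Finset (Fin n) := Finset.univ.filter (fun i => ∃ s : ℝ, 0 ≤ s ∧ lam i = 1 / 4 + s ^ 2 ∧ |s - R| ≤ R ^ (η / 2)) with hI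
  have hIs : ∀ i, ∃ s : ℝ, i ∈ I → (0 ≤ s ∧ lam i = 1 / 4 + s ^ 2 ∧ |s - R| ≤ R ^ (η / 2)) := by
    intro i
    by_cases hi : i ∈ I
    · obtain ⟨s, hs⟩ := (Finset.mem_filter.1 hi).2
      exact ⟨s, fun _ => hs⟩
    · exact ⟨0, fun h => absurd h hi⟩
  choose s hs using hIs
  have hmain := F2_alg hGFD hGBD hFL0 hGR2 R v lam s I hΓ hF hT hφ hv (fun i hi => (hs i hi).2.1) hO
  -- far indices
  have hfar : ∀ i, i ∉ I → R ^ (2 + η) ≤ (lam i - 1 / 4 - R ^ 2) ^ 2 := by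
    intro i hi
    have hni : ¬ ∃ s : ℝ, 0 ≤ s ∧ lam i = 1 / 4 + s ^ 2 ∧ |s - R| ≤ R ^ (η / 2) := fun h =>
      hi (Finset.mem_filter.2 ⟨Finset.mem_univ i, h⟩)
    have h1 : R ^ (1 + η / 2) ≤ |lam i - 1 / 4 - R ^ 2| := by
      rcases lt_or_ge (lam i) (1 / 4) with hl | hl
      · have h2 : R ^ (1 + η / 2) ≤ R ^ (2 : ℝ) := Real.rpow_le_rpow_of_exponent_le hR1' (by linarith)
        have h3 : R ^ (2 : ℝ) = R ^ 2 := by norm_num
        rw [h3] at h2
        rw [abs_of_neg (by nlinarith)]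
        linarith
      · have h2 : lam i = 1 / 4 + Real.sqrt (lam i - 1 / 4) ^ 2 := by
          rw [Real.sq_sqrt (by linarith)]
          ring
        have h3 : R ^ (η / 2) < |Real.sqrt (lam i - 1 / 4) - R| := by
          by_contra h4
          exact hni ⟨_, Real.sqrt_nonneg _, h2, not_lt.1 h4⟩
        have h4 : lam i - 1 / 4 - R ^ 2 = (Real.sqrt (lam i - 1 / 4) - R) * (Real.sqrt (lam i - 1 / 4) + R) := by
          have h5 : (Real.sqrt (lam i - 1 / 4) - R) * (Real.sqrt (lam i - 1 / 4) + R) =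
              Real.sqrt (lam i - 1 / 4) ^ 2 - R ^ 2 := by ring
          rw [h5, Real.sq_sqrt (by linarith)]
        rw [h4, abs_mul]
        have h5 : R ≤ |Real.sqrt (lam i - 1 / 4) + R| := by
          have := Real.sqrt_nonneg (lam i - 1 / 4)
          rw [abs_of_nonneg (by linarith)]
          linarith
        have h6 : R ^ (1 + η / 2) = R ^ (η / 2) * R := by
          rw [Real.rpow_add hR0, Real.rpow_one]
          ring
        rw [h6]
        exact mul_le_mul h3.le h5 hR0.le (abs_nonneg _)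
    have h2 : R ^ (2 + η) = (R ^ (1 + η / 2)) ^ 2 := by
      rw [← Real.rpow_natCast, ← Real.rpow_mul hR0.le]
      congr 1
      push_cast
      ring
    rw [h2, ← sq_abs (lam i - 1 / 4 - R ^ 2)]
    exact pow_le_pow_left₀ (Real.rpow_pos_of_pos hR0 _).le h1 2
  have hfs : ∑ i ∈ Iᶜ, ‖a i‖ ^ 2 ≤ R ^ (-(3 * η / 4)) * nn F φ := by
    have h1 : R ^ (2 + η) * ∑ i ∈ Iᶜ, ‖a i‖ ^ 2 ≤ R ^ (2 + η / 4) * nn F φ := by
      refine le_trans ?_ hnψ
      refine le_trans ?_ hs1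
      rw [Finset.mul_sum]
      refine le_trans ?_ (Finset.sum_le_sum_of_subset_of_nonneg (Finset.subset_univ (Iᶜ)) fun i _ _ => by positivity)
      refine Finset.sum_le_sum fun i hi => ?_
      exact mul_le_mul_of_nonneg_right (hfar i (Finset.mem_compl.1 hi)) (by positivity)
    have h2 : R ^ (2 + η / 4) = R ^ (2 + η) * R ^ (-(3 * η / 4)) := by
      rw [← Real.rpow_add hR0]
      congr 1
      ring
    rw [h2, mul_assoc] at h1
    exact le_of_mul_le_mul_left h1 (Real.rpow_pos_of_pos hR0 _)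
  have hsum : ∑ i ∈ I, ‖a i‖ ^ 2 + ∑ i ∈ Iᶜ, ‖a i‖ ^ 2 = ∑ i, ‖a i‖ ^ 2 := Finset.sum_add_sum_compl I _
  have hnear : (1 - R ^ (-δ) - R ^ (-(3 * η / 4))) * nn F φ ≤ ∑ i ∈ I, ‖a i‖ ^ 2 := by
    have h1 : nn F φ ≤ R ^ (-δ) * nn F φ + ∑ i, ‖a i‖ ^ 2 := by
      calc nn F φ = nn F (fun z => φ z - ∑ i, a i * v i z) + ∑ i, ‖a i‖ ^ 2 := hs3
        _ ≤ R ^ (-δ) * nn F φ + ∑ i, ‖a i‖ ^ 2 := by gcongr
    have h2 : (1 - R ^ (-δ) - R ^ (-(3 * η / 4))) * nn F φ =
        nn F φ - R ^ (-δ) * nn F φ - R ^ (-(3 * η / 4)) * nn F φ := by ring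
    rw [h2]
    linarith
  have hbk : ∀ i ∈ I, 1 - R ^ (-δ) ≤ R * bk (cc c) R (s i) := fun i hi =>
    hN R w (s i) hRR1 hw1 hw0 (hs i hi).2.2
  have hlow : (1 - R ^ (-δ)) * ∑ i ∈ I, ‖a i‖ ^ 2 ≤ R * qn F c R φ := by
    refine le_trans ?_ (mul_le_mul_of_nonneg_left hmain hR0.le)
    rw [Finset.mul_sum, Finset.mul_sum]
    refine Finset.sum_le_sum fun i hi => ?_
    have h1 := mul_le_mul_of_nonneg_right (hbk i hi) (sq_nonneg ‖a i‖)
    calc (1 - R ^ (-δ)) * ‖a i‖ ^ 2 ≤ R * bk (cc c) R (s i) * ‖a i‖ ^ 2 := h1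
      _ = R * (‖a i‖ ^ 2 * bk (cc c) R (s i)) := by ring
  have hsm1 : R ^ (-δ) ≤ R ^ (-d) := Real.rpow_le_rpow_of_exponent_le hR1' (by
    have := min_le_left δ (3 * η / 4)
    linarith)
  have hsm2 : R ^ (-(3 * η / 4)) ≤ R ^ (-d) := Real.rpow_le_rpow_of_exponent_le hR1' (by
    have := min_le_right δ (3 * η / 4)
    linarith)
  have h3d : 3 * R ^ (-d) ≤ R ^ (-(d / 2)) := by
    have h1 : 3 ≤ R ^ (d / 2) := by
      have h2 : ((3 : ℝ) ^ (2 / d)) ^ (d / 2) ≤ R ^ (d / 2) :=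
        Real.rpow_le_rpow (Real.rpow_pos_of_pos (by norm_num) _).le hR3 (by positivity)
      rw [← Real.rpow_mul (by norm_num)] at h2
      have h3 : 2 / d * (d / 2) = 1 := by field_simp
      rwa [h3, Real.rpow_one] at h2
    have h2 : R ^ (-(d / 2)) = R ^ (d / 2) * R ^ (-d) := by
      rw [← Real.rpow_add hR0]
      congr 1
      ring
    rw [h2]
    exact mul_le_mul_of_nonneg_right h1 (Real.rpow_pos_of_pos hR0 _).le
  have hx : (1 - R ^ (-(d / 2))) * nn F φ ≤ (1 - R ^ (-δ)) * ((1 - R ^ (-δ) - R ^ (-(3 * η / 4))) * nn F φ) := by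
    have h1 : 0 < R ^ (-(3 * η / 4)) := Real.rpow_pos_of_pos hR0 _
    rw [← mul_assoc]
    refine mul_le_mul_of_nonneg_right ?_ hnn
    nlinarith
  refine hx.trans (le_trans ?_ hlow)
  exact mul_le_mul_of_nonneg_left hnear (by linarith)

theorem F2_proof (hNBD : NBD_stmt) (hCPL : CPL_stmt) (hSPM : SPM_stmt) (hACC : ACC_stmt) (hCWB : CWB_stmt) : F2_stmt :=
  F2_main A_GFD A_GBD A_FL0 A_GR2 hNBD hCPL hSPM hCWB

end Pool.Agent.RPQ
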