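import Pool.Agent.helper29.RPQ.SpecP
import Pool.Agent.helper62.RS.GLC
import Pool.Agent.helper92.RS.GMG
import Pool.Agent.helper83.RS.GLI
import Pool.Agent.helper9.RS.GRI
import Pool.Agent.helper58.RS.GFD
import Pool.Agent.helper97.RS.GBD
import Pool.Agent.helper97.RS.CV1
import Pool.Agent.helper88.RS.FL0
import Pool.Agent.helper62.RS.LPI
import Pool.Agent.helper58.RS.FL4
import Pool.Agent.helper83.RS.GWB
import Pool.Agent.helper43.RS.GYN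

/-!
# Row rpq:EFU (MP_07c750_an): packets with explicit width, the eigenvalue is far from the frequency
-/

set_option autoImplicit false

open scoped MatrixGroups ContDiff Topology UpperHalfPlane ComplexConjugate
open UpperHalfPlane MeasureTheory Filter Set

namespace Pool.Agent.RPQ

open Pool.Agent.RS
open Pool.Agent.MS (BA BB st pf gk Dk amk)

theorem EFU_GLC : GLC_stmt := GLC
theorem EFU_GMG : GMG_stmt := GMG EFU_GLC
theorem EFU_GLI : GLI_stmt := GLI EFU_GLC EFU_GMG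
theorem EFU_GRI : GRI_stmt := GRI EFU_GLC EFU_GMG EFU_GLI
theorem EFU_GFD : GFD_stmt := GFD EFU_GLC EFU_GMG EFU_GLI EFU_GRI
theorem EFU_GBD : GBD_stmt := GBD EFU_GLC
theorem EFU_GWB : GWB_stmt := GWB EFU_GLC EFU_GBD
theorem EFU_GYN : GYN_stmt := GYN EFU_GLC EFU_GMG EFU_GFD EFU_GBD EFU_GWB
theorem EFU_FL4 : FL4_stmt := FL4 FL0 LPI

theorem EFU_cont {n : WithTop ℕ∞} {φ : ℍ → ℂ} (h : QU.CD n φ) : Continuous φ := by
  have h1 : ContinuousOn (QU.onC φ) {w : ℂ | 0 < w.im} := h.continuousOn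
  have h2 : Continuous fun z : ℍ => QU.onC φ (z : ℂ) := h1.comp_continuous continuous_coe fun z => z.im_pos
  have h3 : (fun z : ℍ => QU.onC φ (z : ℂ)) = φ := by
    funext z
    unfold QU.onC
    rw [ofComplex_apply]
  rwa [h3] at h2

theorem EFU_invC {Γ : Subgroup SL(2, ℝ)} {lam : ℝ} {φ : ℍ → ℂ} (h : EigL Γ lam φ) : InvC Γ φ :=
  ⟨EFU_cont h.1, h.2.1⟩

theorem EFU_int (hGFD : GFD_stmt) (hGBD : GBD_stmt) (hFL0 : FL0_stmt) {Γ : Subgroup SL(2, ℝ)} {F : Set ℍ}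
    {c φ : ℍ → ℂ} (r : ℝ) (hΓ : QU.SurfaceGroup Γ) (hF : QU.NiceDom Γ F) (hc : TB (1 / 4) c) (hφ : InvC Γ φ) :
    IntegrableOn (fun g => ‖Wf (pk r c) φ g‖ ^ 2) (dG F) mG := by
  obtain ⟨⟨hm, -, hfin, -⟩, -⟩ := hGFD Γ F hΓ hF
  have hT := hFL0.2.1 (1 / 4) r c hc
  have hW : InvG Γ (Wf (pk r c) φ) := hFL0.2.2 Γ (pk r c) φ (EFU_cont hT.1) hT.2 hφ
  obtain ⟨⟨m, hm'⟩, -⟩ := hGBD Γ ℂ (Wf (pk r c) φ) hΓ hW
  have hcont : Continuous fun g => ‖Wf (pk r c) φ g‖ ^ 2 := hW.1.norm.pow 2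
  have : IsFiniteMeasure (mG.restrict (dG F)) := ⟨by rwa [Measure.restrict_apply_univ]⟩
  refine Integrable.of_bound hcont.aestronglyMeasurable (m ^ 2) (Filter.Eventually.of_forall fun g => ?_)
  rw [Real.norm_eq_abs, abs_of_nonneg (by positivity)]
  exact pow_le_pow_left₀ (norm_nonneg _) (hm' g) 2

theorem EFU_step (hGFD : GFD_stmt) (hGBD : GBD_stmt) (hFL0 : FL0_stmt) (hFL4 : FL4_stmt)
    {Γ : Subgroup SL(2, ℝ)} {F : Set ℍ} {c φ : ℍ → ℂ} (r lam : ℝ) (hr : 1 ≤ r) (hΓ : QU.SurfaceGroup Γ)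
    (hF : QU.NiceDom Γ F) (hc : TB (1 / 4) c) (hφ : EigL Γ lam φ) :
    (1 / 4 + r ^ 2 - lam) ^ 2 * qn F c r φ ≤ 18 * r ^ 2 * qn F (QU.dY c) r φ + 2 * qn F (QU.lap c) r φ := by
  have hφ' := EFU_invC hφ
  obtain ⟨-, -, hdY, -, hlap, -⟩ := hFL0.1 (1 / 4) c hc
  have i0 := EFU_int hGFD hGBD hFL0 r hΓ hF hc hφ'
  have i1 := EFU_int hGFD hGBD hFL0 r hΓ hF hdY hφ'
  have i2 := EFU_int hGFD hGBD hFL0 r hΓ hF hlap hφ'
  have hpt : ∀ g, (1 / 4 + r ^ 2 - lam) ^ 2 * ‖Wf (pk r c) φ g‖ ^ 2 ≤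
      18 * r ^ 2 * ‖Wf (pk r (QU.dY c)) φ g‖ ^ 2 + 2 * ‖Wf (pk r (QU.lap c)) φ g‖ ^ 2 := by
    intro g
    have h := hFL4 Γ lam r c φ hc hφ g
    have h1 : ((1 / 4 + r ^ 2 - lam : ℝ) : ℂ) * Wf (pk r c) φ g =
        (1 + 2 * (r : ℂ) * Complex.I) * Wf (pk r (QU.dY c)) φ g - Wf (pk r (QU.lap c)) φ g := by
      rw [h]
      ring
    have h2 : ‖(1 + 2 * (r : ℂ) * Complex.I)‖ ≤ 3 * r := by
      refine (norm_add_le _ _).trans ?_
      rw [norm_one, norm_mul, norm_mul, Complex.norm_I, Complex.norm_real, Real.norm_eq_abs, abs_of_pos (by linarith)]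
      norm_num
      linarith
    have h3 : |1 / 4 + r ^ 2 - lam| * ‖Wf (pk r c) φ g‖ ≤
        3 * r * ‖Wf (pk r (QU.dY c)) φ g‖ + ‖Wf (pk r (QU.lap c)) φ g‖ := by
      have h4 := congrArg norm h1
      rw [norm_mul, Complex.norm_real, Real.norm_eq_abs] at h4
      rw [h4]
      refine (norm_sub_le _ _).trans ?_
      rw [norm_mul]
      have h5 := mul_le_mul_of_nonneg_right h2 (norm_nonneg (Wf (pk r (QU.dY c)) φ g))
      linarith
    have h7 := pow_le_pow_left₀ (by positivity) h3 2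
    rw [mul_pow, sq_abs] at h7
    refine h7.trans ?_
    have h8 := sq_nonneg (3 * r * ‖Wf (pk r (QU.dY c)) φ g‖ - ‖Wf (pk r (QU.lap c)) φ g‖)
    nlinarith
  unfold qn iR
  rw [← integral_const_mul, ← integral_const_mul, ← integral_const_mul,
    ← integral_add (i1.const_mul _) (i2.const_mul _)]
  exact integral_mono (i0.const_mul _) ((i1.const_mul _).add (i2.const_mul _)) hpt

/-- the absolute value of a packet at `pt x τ` -/
theorem EFU_npk (r : ℝ) (c : ℍ → ℂ) (x τ : ℝ) : ‖pk r c (pt x τ)‖ = ‖cc c x τ‖ * Real.exp (τ / 2) := by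
  unfold pk cc
  rw [norm_mul]
  congr 1
  have h1 : (pt x τ).im = Real.exp τ := rfl
  rw [h1, Complex.norm_cpow_eq_rpow_re_of_pos (Real.exp_pos τ)]
  have h2 : ((1 / 2 : ℂ) + (r : ℂ) * Complex.I).re = 1 / 2 := by
    simp
  rw [h2, ← Real.exp_mul]
  congr 1
  ring

/-- the integral of the absolute value of a packet -/
theorem EFU_L1 {A m w l : ℝ} {c : ℍ → ℂ} (r : ℝ) (hw : 0 < w) (hl : 0 < l) (hA : 0 ≤ A)
    (hT : TB (1 / 4) c) (hc : AC 0 A m w l c) : ∫ z : ℍ, ‖pk r c z‖ ≤ 8 * w * l * A := by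
  have hTst := FL0.2.1 (1 / 4) r c hT
  have hcont : Continuous (pk r c) := EFU_cont hTst.1
  have hsup : HasCompactSupport (pk r c) := hTst.2
  have e1 : ∫ z : ℍ, ((‖pk r c z‖ : ℝ) : ℂ) =
      ∫ τ : ℝ, ∫ x : ℝ, ((Real.exp (-τ) : ℝ) : ℂ) * ((‖pk r c (pt x τ)‖ : ℝ) : ℂ) :=
    CV1.1 (fun z => ((‖pk r c z‖ : ℝ) : ℂ)) (Complex.continuous_ofReal.comp hcont.norm)
      (hsup.norm.comp_left (g := fun t : ℝ => (t : ℂ)) Complex.ofReal_zero)
  have e2 : ∫ z : ℍ, ((‖pk r c z‖ : ℝ) : ℂ) = ((∫ z : ℍ, ‖pk r c z‖ : ℝ) : ℂ) := integral_ofReal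
  have h0 : 0 ≤ ∫ z : ℍ, ‖pk r c z‖ := integral_nonneg fun z => norm_nonneg _
  have e3 : ∫ z : ℍ, ‖pk r c z‖ =
      ‖∫ τ : ℝ, ∫ x : ℝ, ((Real.exp (-τ) : ℝ) : ℂ) * ((‖pk r c (pt x τ)‖ : ℝ) : ℂ)‖ := by
    rw [← e1, e2, Complex.norm_real, Real.norm_eq_abs, abs_of_nonneg h0]
  rw [e3]
  have hcc : ∀ x τ : ℝ, ‖cc c x τ‖ ≤ A := by
    intro x τ
    have h1 := hc.der 0 le_rfl (x, τ)
    rw [norm_iteratedFDeriv_zero, pow_zero, mul_one] at h1
    exact h1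
  have hz : ∀ x τ : ℝ, (w < |x| ∨ l < |τ| ∨ 1 / 4 < |τ|) → cc c x τ = 0 := by
    intro x τ h
    by_contra hne
    have h1 := hc.supp (pt x τ) hne
    have h2 := hT.2 (pt x τ) hne
    have h3 : (pt x τ).re = x := rfl
    have h4 : (pt x τ).im = Real.exp τ := rfl
    rw [h3, h4, Real.log_exp] at h1 h2
    rcases h with h | h | h
    · linarith [h1.1]
    · linarith [h1.2]
    · linarith [h2.2]
  have hin : ∀ τ : ℝ, ‖∫ x : ℝ, ((Real.exp (-τ) : ℝ) : ℂ) * ((‖pk r c (pt x τ)‖ : ℝ) : ℂ)‖ ≤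
      2 * A * (2 * w) := by
    intro τ
    have hb : ∀ x : ℝ, ‖((Real.exp (-τ) : ℝ) : ℂ) * ((‖pk r c (pt x τ)‖ : ℝ) : ℂ)‖ ≤ 2 * A := by
      intro x
      rw [norm_mul, Complex.norm_real, Complex.norm_real, Real.norm_eq_abs, Real.norm_eq_abs,
        abs_of_pos (Real.exp_pos _), abs_of_nonneg (norm_nonneg _), EFU_npk]
      by_cases hτ : 1 / 4 < |τ|
      · rw [hz x τ (Or.inr (Or.inr hτ)), norm_zero]
        simp only [zero_mul, mul_zero]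
        positivity
      · have h1 : Real.exp (-τ) * (‖cc c x τ‖ * Real.exp (τ / 2)) = ‖cc c x τ‖ * Real.exp (-(τ / 2)) := by
          have h2 : Real.exp (-τ) * Real.exp (τ / 2) = Real.exp (-(τ / 2)) := by
            rw [← Real.exp_add]
            congr 1
            ring
          calc Real.exp (-τ) * (‖cc c x τ‖ * Real.exp (τ / 2))
              = ‖cc c x τ‖ * (Real.exp (-τ) * Real.exp (τ / 2)) := by ring
            _ = ‖cc c x τ‖ * Real.exp (-(τ / 2)) := by rw [h2]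
        rw [h1]
        have h3 : Real.exp (-(τ / 2)) ≤ 2 := by
          have h4 : -(τ / 2) ≤ 1 / 8 := by
            have := (abs_le.1 (not_lt.1 hτ)).1
            linarith
          have h5 : Real.exp (-(τ / 2)) ≤ Real.exp (1 / 2) :=
            Real.exp_le_exp.2 (h4.trans (by norm_num))
          have h6 : Real.exp (1 / 2) ^ 2 ≤ 2 ^ 2 := by
            rw [← Real.exp_nat_mul]
            have h7 := Real.exp_one_lt_d9
            norm_num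
            linarith
          have h8 : Real.exp (1 / 2) ≤ 2 := by
            have h9 := abs_le_of_sq_le_sq h6 (by norm_num)
            rwa [abs_of_pos (Real.exp_pos _)] at h9
          exact h5.trans h8
        calc ‖cc c x τ‖ * Real.exp (-(τ / 2)) ≤ A * 2 :=
              mul_le_mul (hcc x τ) h3 (Real.exp_pos _).le hA
          _ = 2 * A := by ring
    have hs : ∫ x in Icc (-w) w, ((Real.exp (-τ) : ℝ) : ℂ) * ((‖pk r c (pt x τ)‖ : ℝ) : ℂ) =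
        ∫ x : ℝ, ((Real.exp (-τ) : ℝ) : ℂ) * ((‖pk r c (pt x τ)‖ : ℝ) : ℂ) := by
      refine setIntegral_eq_integral_of_forall_compl_eq_zero fun x hx => ?_
      have h1 : w < |x| := by
        by_contra h2
        exact hx (abs_le.1 (not_lt.1 h2))
      rw [EFU_npk, hz x τ (Or.inl h1), norm_zero, zero_mul, Complex.ofReal_zero, mul_zero]
    rw [← hs]
    have hv : volume.real (Icc (-w) w) = 2 * w := by
      rw [Real.volume_real_Icc_of_le (by linarith)]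
      ring
    rw [← hv]
    exact norm_setIntegral_le_of_norm_le_const (by rw [Real.volume_Icc]; exact ENNReal.ofReal_lt_top) fun x _ => hb x
  have hs : ∫ τ in Icc (-l) l, (∫ x : ℝ, ((Real.exp (-τ) : ℝ) : ℂ) * ((‖pk r c (pt x τ)‖ : ℝ) : ℂ)) =
      ∫ τ : ℝ, ∫ x : ℝ, ((Real.exp (-τ) : ℝ) : ℂ) * ((‖pk r c (pt x τ)‖ : ℝ) : ℂ) := by
    refine setIntegral_eq_integral_of_forall_compl_eq_zero fun τ hτ => ?_
    have h1 : l < |τ| := by
      by_contra h2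
      exact hτ (abs_le.1 (not_lt.1 h2))
    have h2 : (fun x : ℝ => ((Real.exp (-τ) : ℝ) : ℂ) * ((‖pk r c (pt x τ)‖ : ℝ) : ℂ)) = fun _ => 0 := by
      funext x
      rw [EFU_npk, hz x τ (Or.inr (Or.inl h1)), norm_zero, zero_mul, Complex.ofReal_zero, mul_zero]
    rw [h2, integral_zero]
  rw [← hs]
  have hv : volume.real (Icc (-l) l) = 2 * l := by
    rw [Real.volume_real_Icc_of_le (by linarith)]
    ring
  have h1 : ‖∫ τ in Icc (-l) l, (∫ x : ℝ, ((Real.exp (-τ) : ℝ) : ℂ) * ((‖pk r c (pt x τ)‖ : ℝ) : ℂ))‖ ≤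
      2 * A * (2 * w) * volume.real (Icc (-l) l) :=
    norm_setIntegral_le_of_norm_le_const (by rw [Real.volume_Icc]; exact ENNReal.ofReal_lt_top) fun τ _ => hin τ
  rw [hv] at h1
  refine h1.trans (le_of_eq ?_)
  ring

/-- the trivial bound -/
theorem EFU_triv {Γ : Subgroup SL(2, ℝ)} {F : Set ℍ} {A m w l lam : ℝ} {c φ : ℍ → ℂ} (r : ℝ) (hw : 0 < w) (hl : 0 < l)
    (hA : 0 ≤ A) (hΓ : QU.SurfaceGroup Γ) (hF : QU.NiceDom Γ F) (hφ : EigL Γ lam φ)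
    (hT : TB (1 / 4) c) (hc : AC 0 A m w l c) : qn F c r φ ≤ (8 * w * l * A) ^ 2 * nn F φ := by
  have hTst := FL0.2.1 (1 / 4) r c hT
  have h1 := EFU_GYN Γ F (pk r c) φ hΓ hF (EFU_cont hTst.1) hTst.2 (EFU_invC hφ)
  have h2 := EFU_L1 r hw hl hA hT hc
  have hnn : 0 ≤ nn F φ := integral_nonneg fun z => by positivity
  have h3 : 0 ≤ ∫ z : ℍ, ‖pk r c z‖ := integral_nonneg fun z => norm_nonneg _
  have h4 : (∫ z : ℍ, ‖pk r c z‖) ^ 2 ≤ (8 * w * l * A) ^ 2 := pow_le_pow_left₀ h3 h2 2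
  have h5 := mul_le_mul_of_nonneg_right h4 hnn
  exact h1.trans h5

/-- the eigenvalue is far from `1/4 + R²` -/
theorem EFU_far {R lam : ℝ} (hR : 1 ≤ R) (hs : ∀ s : ℝ, 0 ≤ s → lam = 1 / 4 + s ^ 2 → R / 100 < |s - R|) :
    R ^ 2 / 200 ≤ |1 / 4 + R ^ 2 - lam| := by
  have hr0 : 0 < R := by linarith
  rcases lt_or_ge lam (1 / 4) with hl | hl
  · rw [abs_of_nonneg (by nlinarith)]
    nlinarith
  · have hs0 : 0 ≤ Real.sqrt (lam - 1 / 4) := Real.sqrt_nonneg _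
    have hlam : lam = 1 / 4 + Real.sqrt (lam - 1 / 4) ^ 2 := by
      rw [Real.sq_sqrt (by linarith)]
      ring
    have h3 := (hs _ hs0 hlam).le
    have h1 : 1 / 4 + R ^ 2 - lam = -((Real.sqrt (lam - 1 / 4) - R) * (Real.sqrt (lam - 1 / 4) + R)) := by
      have h2 : (Real.sqrt (lam - 1 / 4) - R) * (Real.sqrt (lam - 1 / 4) + R) =
          Real.sqrt (lam - 1 / 4) ^ 2 - R ^ 2 := by ring
      rw [h2, Real.sq_sqrt (by linarith)]
      ring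
    rw [h1, abs_neg, abs_mul]
    have h4 : R ≤ |Real.sqrt (lam - 1 / 4) + R| := by
      rw [abs_of_nonneg (by linarith)]
      linarith
    calc R ^ 2 / 200 ≤ R / 100 * R := by nlinarith
      _ ≤ |Real.sqrt (lam - 1 / 4) - R| * |Real.sqrt (lam - 1 / 4) + R| :=
        mul_le_mul h3 h4 hr0.le (abs_nonneg _)

theorem EFU_proof (hACC : ACC_stmt) (hACM : ACM_stmt) (hCWB : CWB_stmt) : EFU_stmt := by
  intro α β hα hβ
  obtain ⟨C, hC, hAC⟩ := hACC 0 α β hα hβ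
  refine ⟨40000 * (1280 * C ^ 2), by positivity, ?_⟩
  intro Γ F R w l lam φ hΓ hF hR hw1 hw0 hl0 hl1 hφ hs
  have hR0 : 0 < R := by linarith
  have hwpos : 0 < w := lt_of_lt_of_le (Real.rpow_pos_of_pos hR0 _) hw1
  have hlpos : 0 < l := lt_of_lt_of_le (Real.rpow_pos_of_pos hR0 _) hl0
  have hwl : w ≤ l := by
    refine hw0.trans (le_trans ?_ hl0)
    exact Real.rpow_le_rpow_of_exponent_le hR (by norm_num)
  have hw1' : w ≤ 1 := hwl.trans hl1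
  obtain ⟨-, -, -, -, -, -, hT, -⟩ := hCWB α β w l hα hβ hwpos hw1' hlpos hl1
  obtain ⟨a0, a1, a2⟩ := hAC w l hwpos hwl hl1
  set c : ℍ → ℂ := cw β α w l with hc
  obtain ⟨-, -, hdY, -, hlap, -⟩ := FL0.1 (1 / 4) c hT
  have hwA : 0 ≤ C * (w ^ (-(1 / 2) : ℝ) / l ^ 2) := by positivity
  have hwB : 0 ≤ C * (w ^ (-(5 / 2) : ℝ) / l) := by positivity
  have b1 := EFU_triv R hwpos hlpos hwA hΓ hF hφ hdY a1
  have b2 := EFU_triv R hwpos hlpos hwB hΓ hF hφ hlap a2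
  have st0 := EFU_step EFU_GFD EFU_GBD FL0 EFU_FL4 R lam hR hΓ hF hT hφ
  have hfar := EFU_far hR hs
  have hnn : 0 ≤ nn F φ := integral_nonneg fun z => by positivity
  have hq : 0 ≤ qn F c R φ := integral_nonneg fun g => by positivity
  -- the powers
  have p1 : (8 * w * l * (C * (w ^ (-(1 / 2) : ℝ) / l ^ 2))) ^ 2 ≤ 64 * C ^ 2 := by
    have h1 : (w ^ (-(1 / 2) : ℝ)) ^ 2 = w⁻¹ := by
      rw [← Real.rpow_natCast, ← Real.rpow_mul hwpos.le, ← Real.rpow_neg_one]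
      norm_num
    have h2 : (8 * w * l * (C * (w ^ (-(1 / 2) : ℝ) / l ^ 2))) ^ 2 = 64 * C ^ 2 * (w / l ^ 2) := by
      have h3 : (8 * w * l * (C * (w ^ (-(1 / 2) : ℝ) / l ^ 2))) ^ 2 =
          64 * C ^ 2 * (w ^ 2 * (w ^ (-(1 / 2) : ℝ)) ^ 2) * (l ^ 2 / (l ^ 2) ^ 2) := by ring
      rw [h3, h1]
      field_simp
    rw [h2]
    have h4 : w / l ^ 2 ≤ 1 := by
      rw [div_le_one (by positivity)]
      have h5 : (R ^ (-(1 / 8) : ℝ)) ^ 2 ≤ l ^ 2 :=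
        pow_le_pow_left₀ (Real.rpow_pos_of_pos hR0 _).le hl0 2
      have h6 : (R ^ (-(1 / 8) : ℝ)) ^ 2 = R ^ (-(1 / 4) : ℝ) := by
        rw [← Real.rpow_natCast, ← Real.rpow_mul hR0.le]
        norm_num
      rw [h6] at h5
      exact hw0.trans h5
    have h7 : 0 ≤ 64 * C ^ 2 := by positivity
    calc 64 * C ^ 2 * (w / l ^ 2) ≤ 64 * C ^ 2 * 1 := mul_le_mul_of_nonneg_left h4 h7
      _ = 64 * C ^ 2 := mul_one _
  have p2 : (8 * w * l * (C * (w ^ (-(5 / 2) : ℝ) / l))) ^ 2 ≤ 64 * C ^ 2 * R ^ 2 := by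
    have h1 : w * w ^ (-(5 / 2) : ℝ) = w ^ (-(3 / 2) : ℝ) := by
      nth_rewrite 1 [← Real.rpow_one w]
      rw [← Real.rpow_add hwpos]
      norm_num
    have h2 : 8 * w * l * (C * (w ^ (-(5 / 2) : ℝ) / l)) = 8 * C * w ^ (-(3 / 2) : ℝ) := by
      rw [← h1]
      field_simp
    have h3 : w ^ (-(3 / 2) : ℝ) ≤ R := by
      have h4 : w ^ (-(3 / 2) : ℝ) ≤ (w1 R) ^ (-(3 / 2) : ℝ) :=
        Real.rpow_le_rpow_of_nonpos (Real.rpow_pos_of_pos hR0 _) hw1 (by norm_num)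
      have h5 : (w1 R) ^ (-(3 / 2) : ℝ) = R ^ ((9 / 16) : ℝ) := by
        unfold w1
        rw [← Real.rpow_mul hR0.le]
        norm_num
      have h6 : R ^ ((9 / 16) : ℝ) ≤ R ^ (1 : ℝ) := Real.rpow_le_rpow_of_exponent_le hR (by norm_num)
      rw [Real.rpow_one] at h6
      rw [h5] at h4
      exact h4.trans h6
    rw [h2]
    have h7 : 8 * C * w ^ (-(3 / 2) : ℝ) ≤ 8 * C * R := mul_le_mul_of_nonneg_left h3 (by positivity)
    calc (8 * C * w ^ (-(3 / 2) : ℝ)) ^ 2 ≤ (8 * C * R) ^ 2 := pow_le_pow_left₀ (by positivity) h7 2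
      _ = 64 * C ^ 2 * R ^ 2 := by ring
  have q1 : qn F (QU.dY c) R φ ≤ 64 * C ^ 2 * nn F φ := b1.trans (mul_le_mul_of_nonneg_right p1 hnn)
  have q2 : qn F (QU.lap c) R φ ≤ 64 * C ^ 2 * R ^ 2 * nn F φ := b2.trans (mul_le_mul_of_nonneg_right p2 hnn)
  have hL2 : (R ^ 2 / 200) ^ 2 ≤ (1 / 4 + R ^ 2 - lam) ^ 2 := by
    rw [← sq_abs (1 / 4 + R ^ 2 - lam)]
    exact pow_le_pow_left₀ (by positivity) hfar 2
  have e1 : (R ^ 2 / 200) ^ 2 * qn F c R φ ≤ 1280 * C ^ 2 * R ^ 2 * nn F φ := by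
    refine (mul_le_mul_of_nonneg_right hL2 hq).trans (st0.trans ?_)
    have h1 : 18 * R ^ 2 * qn F (QU.dY c) R φ ≤ 18 * R ^ 2 * (64 * C ^ 2 * nn F φ) :=
      mul_le_mul_of_nonneg_left q1 (by positivity)
    calc 18 * R ^ 2 * qn F (QU.dY c) R φ + 2 * qn F (QU.lap c) R φ
        ≤ 18 * R ^ 2 * (64 * C ^ 2 * nn F φ) + 2 * (64 * C ^ 2 * R ^ 2 * nn F φ) := by linarith
      _ = 1280 * C ^ 2 * R ^ 2 * nn F φ := by ring
  have hRm : R ^ (-2 : ℝ) = (R ^ 2)⁻¹ := by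
    rw [Real.rpow_neg hR0.le]
    norm_num
  rw [hRm]
  have e2 : R ^ 2 * (R ^ 2 * qn F c R φ) ≤ R ^ 2 * (40000 * (1280 * C ^ 2) * nn F φ) := by
    have h1 : (R ^ 2 / 200) ^ 2 * qn F c R φ = R ^ 2 * (R ^ 2 * qn F c R φ) / 40000 := by ring
    rw [h1, div_le_iff₀ (by norm_num)] at e1
    calc R ^ 2 * (R ^ 2 * qn F c R φ) ≤ 1280 * C ^ 2 * R ^ 2 * nn F φ * 40000 := e1
      _ = R ^ 2 * (40000 * (1280 * C ^ 2) * nn F φ) := by ring
  have e3 : R ^ 2 * qn F c R φ ≤ 40000 * (1280 * C ^ 2) * nn F φ := le_of_mul_le_mul_left e2 (by positivity)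
  have e4 : qn F c R φ ≤ (40000 * (1280 * C ^ 2) * nn F φ) / R ^ 2 := by
    rw [le_div_iff₀ (by positivity)]
    linarith
  refine e4.trans (le_of_eq ?_)
  field_simp

end Pool.Agent.RPQ
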